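import Pool.Agent.Lib.MP_1ae38f_an.Final

/-!
Two domains which agree outside a disk and have different Bergman numbers and different weighted
Bergman numbers.
-/

set_option autoImplicit false

namespace Pool.Agent.Results.MP_1ae38f_an.BergmanNumbersDiffer

open Pool.Agent.Lib.MP_1ae38f_an

/-- There are two domains which agree near infinity, the first with all (weighted) Bergman numbers
`+∞` and the second with all (weighted) Bergman numbers finite. -/
theorem result : ∃ D₁ D₂ : Set ℂ, IsDomainSet D₁ ∧ IsDomainSet D₂ ∧ AgreeNearInfinity D₁ D₂ ∧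
    (bergmanNumber D₁ = ⊤ ∧ bergmanNumber D₂ < ⊤) ∧
    ∀ α : ℝ, -1 < α → weightedBergmanNumber α D₁ = ⊤ ∧ weightedBergmanNumber α D₂ < ⊤ :=
  ⟨D1, D2, isDomainSet_D1, isDomainSet_D2, agreeNearInfinity_D1_D2,
    ⟨bergmanNumber_D1, bergmanNumber_D2.trans_lt ENNReal.ofReal_lt_top⟩,
    fun _ hα => ⟨weightedBergmanNumber_D1 hα,
      (weightedBergmanNumber_D2 hα).trans_lt ENNReal.ofReal_lt_top⟩⟩

end Pool.Agent.Results.MP_1ae38f_an.BergmanNumbersDiffer
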