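import Pool.Agent.Lib.MP_1ae38f_an.Final

/-!
Two domains which agree outside a disk and have different Hardy numbers.
-/

set_option autoImplicit false

namespace Pool.Agent.Results.MP_1ae38f_an.HardyNumbersDiffer

open Pool.Agent.Lib.MP_1ae38f_an

/-- There are two domains which agree near infinity, the first with Hardy number `+∞` and the
second with finite Hardy number. -/
theorem result : ∃ D₁ D₂ : Set ℂ, IsDomainSet D₁ ∧ IsDomainSet D₂ ∧ AgreeNearInfinity D₁ D₂ ∧
    hardyNumber D₁ = ⊤ ∧ hardyNumber D₂ < ⊤ :=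
  ⟨D1, D2, isDomainSet_D1, isDomainSet_D2, agreeNearInfinity_D1_D2, hardyNumber_D1,
    hardyNumber_D2.trans_lt ENNReal.ofReal_lt_top⟩

end Pool.Agent.Results.MP_1ae38f_an.HardyNumbersDiffer
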